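import Pool.Agent.H32.N6W.Targets

/-!
# Board MP_63b6b1_nt (n6w_modules), row DRS: the determinant of the form and the resultant
-/

set_option autoImplicit false

namespace Pool.Agent.H14.N6W

open Polynomial Matrix
open Pool.Agent.H32.QC Pool.Agent.H34.N6 Pool.Agent.H13.DEV Pool.Agent.H34.N6V
open Pool.Agent.H63.WT Pool.Agent.H32.N6W

variable {F : Type} [Field F]

/-- the form `lam` as a linear map -/
noncomputable def lamL (P : F[X]) : F[X] →ₗ[F] F :=
  (Polynomial.lcoeff F (P.natDegree - 1)).comp (Polynomial.modByMonicHom P)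

theorem lamL_eq (P g : F[X]) : lamL P g = lam P g := rfl

theorem lamL_mul {P : F[X]} (hP : P.Monic) (g : F[X]) : lamL P (P * g) = 0 := by
  show ((P * g) %ₘ P).coeff (P.natDegree - 1) = 0
  rw [(modByMonic_eq_zero_iff_dvd hP).2 (dvd_mul_right P g), coeff_zero]

/-- the matrix of the multiplication by `D` -/
noncomputable def mD (P D : F[X]) : Matrix (Fin 7) (Fin 7) F :=
  Matrix.of fun k j => ((D * X ^ (j : ℕ)) %ₘ P).coeff k

/-- the Gram matrix of `lam` -/
noncomputable def mH (P : F[X]) : Matrix (Fin 7) (Fin 7) F :=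
  Matrix.of fun i j => lamL P (X ^ ((i : ℕ) + (j : ℕ)))

theorem mod_sum {P : F[X]} (hP : P.Monic) (hd : P.natDegree = 7) (f : F[X]) :
    f %ₘ P = ∑ k : Fin 7, C ((f %ₘ P).coeff k) * X ^ (k : ℕ) := by
  have h1 : (f %ₘ P).natDegree < 7 := by
    have h2 := natDegree_modByMonic_lt f hP (by
      rintro rfl
      simp at hd)
    rwa [hd] at h2
  conv_lhs => rw [(f %ₘ P).as_sum_range_C_mul_X_pow' h1]
  rw [Finset.sum_range]

theorem gA_eq {P : F[X]} (hP : P.Monic) (hd : P.natDegree = 7) (D : F[X]) :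
    gA P D 0 = mH P * mD P D := by
  ext i j
  rw [Matrix.mul_apply]
  show lam P (D * X ^ ((i : ℕ) + (j : ℕ) + 0)) = _
  have h1 : ∑ k, mH P i k * mD P D k j = lamL P (X ^ (i : ℕ) * ((D * X ^ (j : ℕ)) %ₘ P)) := by
    conv_rhs => rw [mod_sum hP hd (D * X ^ (j : ℕ))]
    rw [Finset.mul_sum, map_sum]
    refine Finset.sum_congr rfl fun k _ => ?_
    show lamL P (X ^ ((i : ℕ) + (k : ℕ))) * ((D * X ^ (j : ℕ)) %ₘ P).coeff k = _
    rw [mul_left_comm, ← pow_add, ← smul_eq_C_mul, map_smul, smul_eq_mul, mul_comm]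
  rw [h1, ← lamL_eq]
  have h2 : D * X ^ ((i : ℕ) + (j : ℕ) + 0) = X ^ (i : ℕ) * ((D * X ^ (j : ℕ)) %ₘ P) +
      P * (X ^ (i : ℕ) * ((D * X ^ (j : ℕ)) /ₘ P)) := by
    have h3 := modByMonic_add_div (D * X ^ (j : ℕ)) P
    rw [add_zero, pow_add]
    linear_combination (-X ^ (i : ℕ)) * h3
  rw [h2, map_add, lamL_mul hP, add_zero]

theorem det_mH {P : F[X]} (hP : P.Monic) (hd : P.natDegree = 7) : (mH P).det = -1 := by
  have h0 : ∀ n : ℕ, n < 7 → lamL P (X ^ n) = if n = 6 then 1 else 0 := by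
    intro n hn
    show ((X ^ n) %ₘ P).coeff (P.natDegree - 1) = _
    rw [(modByMonic_eq_self_iff hP).2 (by
      rw [degree_X_pow, degree_eq_natDegree hP.ne_zero, hd]
      exact_mod_cast hn), hd, coeff_X_pow]
    simp [eq_comm]
  have h1 := Matrix.det_permute' (Fin.revPerm : Equiv.Perm (Fin 7)) (mH P)
  have h2 : ((mH P).submatrix id (Fin.revPerm : Equiv.Perm (Fin 7))).det = 1 := by
    rw [Matrix.det_of_isLowerTriangular]
    · refine Finset.prod_eq_one fun i _ => ?_
      show lamL P (X ^ ((i : ℕ) + ((Fin.rev i : Fin 7) : ℕ))) = 1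
      have h3 : (i : ℕ) + ((Fin.rev i : Fin 7) : ℕ) = 6 := by
        rw [Fin.val_rev]
        omega
      rw [h3, h0 6 (by norm_num), if_pos rfl]
    · intro i j hij
      have hij' : (i : ℕ) < j := hij
      show lamL P (X ^ ((i : ℕ) + ((Fin.rev j : Fin 7) : ℕ))) = 0
      have h3 : (i : ℕ) + ((Fin.rev j : Fin 7) : ℕ) < 6 := by
        rw [Fin.val_rev]
        omega
      rw [h0 _ (by omega), if_neg (by omega)]
  rw [h2] at h1
  have h3 : Equiv.Perm.sign (Fin.revPerm : Equiv.Perm (Fin 7)) = -1 := by decide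
  rw [h3] at h1
  push_cast at h1
  linear_combination h1

theorem det_mD {P : F[X]} (hP : P.Monic) (hd : P.natDegree = 7) (hs : P.Separable) (D : F[X]) :
    (mD P D).det = P.resultant D := by
  classical
  set E := AlgebraicClosure F with hE
  set ι : F →+* E := algebraMap F E with hι
  refine ι.injective ?_
  set Q : E[X] := P.map ι with hQ
  have hQm : Q.Monic := hP.map ι
  have hQs : Q.Splits := IsAlgClosed.splits Q
  have hQd : Q.natDegree = 7 := by rw [hQ, natDegree_map_eq_of_injective ι.injective, hd]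
  have hnd : Q.roots.Nodup := nodup_roots hs.map
  have hcard : Q.roots.toFinset.card = 7 := by
    rw [Multiset.toFinset_card_of_nodup hnd, ← hQs.natDegree_eq_card_roots, hQd]
  obtain ⟨e0⟩ : Nonempty (Fin 7 ≃ {x // x ∈ Q.roots.toFinset}) :=
    ⟨(Q.roots.toFinset.equivFinOfCardEq hcard).symm⟩
  set e : Fin 7 → E := fun i => (e0 i).1 with he
  have hinj : Function.Injective e := fun i j hij => e0.injective (Subtype.ext hij)
  have hroot : ∀ i, Q.eval (e i) = 0 := by
    intro i
    have h1 := (e0 i).2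
    rw [Multiset.mem_toFinset, mem_roots hQm.ne_zero] at h1
    exact h1
  have hres : ι (P.resultant D) = ∏ i, (D.map ι).eval (e i) := by
    have h1 := resultant_eq_prod_eval Q (D.map ι) D.natDegree natDegree_map_le hQs
    rw [hQd, hQm.leadingCoeff, one_pow, one_mul] at h1
    rw [← hd, hQ, resultant_map_map] at h1
    rw [h1]
    have h2 : (P.map ι).roots = Q.roots.toFinset.val := by
      rw [Multiset.toFinset_val, hnd.dedup]
    rw [h2]
    show ∏ x ∈ Q.roots.toFinset, (D.map ι).eval x = _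
    rw [← Finset.prod_coe_sort]
    exact (Fintype.prod_equiv e0 _ _ fun i => rfl).symm
  have hV : (Matrix.vandermonde e).det ≠ 0 := Matrix.det_vandermonde_ne_zero_iff.2 hinj
  have hmul : Matrix.vandermonde e * (mD P D).map ι =
      Matrix.diagonal (fun i => (D.map ι).eval (e i)) * Matrix.vandermonde e := by
    ext i j
    rw [Matrix.mul_apply, Matrix.diagonal_mul]
    have h1 : (((D * X ^ (j : ℕ)) %ₘ P).map ι).eval (e i) =
        ∑ k : Fin 7, e i ^ (k : ℕ) * ι (((D * X ^ (j : ℕ)) %ₘ P).coeff k) := by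
      conv_lhs => rw [mod_sum hP hd (D * X ^ (j : ℕ))]
      rw [Polynomial.map_sum, eval_finsetSum]
      refine Finset.sum_congr rfl fun k _ => ?_
      rw [Polynomial.map_mul, Polynomial.map_pow, map_C, map_X, eval_mul, eval_C, eval_pow,
        eval_X, mul_comm]
    have h2 : (((D * X ^ (j : ℕ)) %ₘ P).map ι).eval (e i) =
        (D.map ι).eval (e i) * e i ^ (j : ℕ) := by
      have h3 := congrArg (fun f : F[X] => (f.map ι).eval (e i))
        (modByMonic_add_div (D * X ^ (j : ℕ)) P)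
      simp only [Polynomial.map_add, Polynomial.map_mul, Polynomial.map_pow, map_X, eval_add,
        eval_mul, eval_pow, eval_X] at h3
      rw [show (P.map ι).eval (e i) = 0 from hroot i, zero_mul, add_zero] at h3
      exact h3
    exact h1.symm.trans h2
  have h3 := congrArg Matrix.det hmul
  rw [Matrix.det_mul, Matrix.det_mul, Matrix.det_diagonal, ← hres, mul_comm (ι _)] at h3
  have h4 := mul_left_cancel₀ hV h3
  rw [← h4, RingHom.map_det]
  rfl

theorem pf_DRS : T_DRS := by
  intro F _ _ P D hP hd hs _ hsq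
  rw [gA_eq hP hd D, Matrix.det_mul, det_mH hP hd, det_mD hP hd hs D, neg_one_mul,
    neg_neg] at hsq
  exact hsq

end Pool.Agent.H14.N6W
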