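import Pool.Agent.H32.N6W.Targets
import Pool.Agent.H32.N6W.TargetsL

/-!
# Board MP_63b6b1_nt (n6w_modules), row LOQ: the local lemma, both parities
-/

set_option autoImplicit false

namespace Pool.Agent.H14.N6W

open Polynomial Matrix
open Pool.Agent.H32.QC Pool.Agent.H34.N6 Pool.Agent.H13.DEV Pool.Agent.H34.N6V
open Pool.Agent.H63.WT Pool.Agent.H32.N6W

theorem hpr_mul {F : Type} [Field F] {A B : F[X]} (hA : A ≠ 0) (hB : B ≠ 0) (a b : F[X]) :
    hpr (A * B) a b = hpr A a b * hpr B a b := by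
  classical
  unfold hpr
  rw [UniqueFactorizationMonoid.normalizedFactors_mul hA hB, Multiset.map_add,
    Multiset.prod_add]

theorem sq_res {F : Type} [Field F] {P1 P2 D : F[X]} (h1 : P1.Monic) (h2 : P2.Monic)
    (hs1 : IsSquare (P1.resultant D)) (hs2 : IsSquare (P2.resultant D)) :
    IsSquare ((P1 * P2).resultant D) := by
  have h3 := resultant_mul_left P1 P2 D D.natDegree le_rfl
  rw [← h1.natDegree_mul h2] at h3
  rw [h3]
  exact hs1.mul hs2

theorem pf_LOQ (_hHPM : T_HPM) : T_LOQ := by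
  intro F _ e he P1 P2 D h1 h2 hsep hdeg hcop hs1 hs2 hCZ
  unfold qm
  by_cases hev : Even P1.natDegree
  · rw [if_pos hev]
    exact he.loc P1 P2 D h1 h2 hsep hdeg hev hcop hs1 hs2 hCZ
  · rw [if_neg hev]
    have hdeg' := h1.natDegree_mul h2
    have hev2 : Even P2.natDegree := by
      rw [hdeg] at hdeg'
      rcases Nat.even_or_odd P2.natDegree with h | h
      · exact h
      · rw [Nat.not_even_iff_odd] at hev
        have h3 := hev.add_odd h
        rw [← hdeg'] at h3
        exact absurd h3 (by decide)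
    obtain ⟨A, hA, hA2⟩ := he.loc P2 P1 D h2 h1 (by rwa [mul_comm]) (by rwa [mul_comm]) hev2
      (by rwa [mul_comm]) hs2 hs1 (by rwa [mul_comm P2 P1])
    rw [mul_comm P2 P1] at hA
    refine ⟨A, hA, ?_⟩
    have h3 := he.tot (P1 * P2) D A (h1.mul h2) hsep hdeg hcop (sq_res h1 h2 hs1 hs2) hA
    rw [hpr_mul h1.ne_zero h2.ne_zero, hA2] at h3
    rw [← h3]
    rcases he.inv.sgn (cls (Phi P2 P1 D)) with h4 | h4
    · rw [h4]
      ring
    · rw [h4]
      ring

end Pool.Agent.H14.N6W
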